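import Mathlib
import Pool.Agent.R465.PC.Fib

set_option autoImplicit false

/-!
# Families of polynomials containing all monomials in two variables
-/

namespace Pool.Agent.R465.CI

open Pool.Agent.R366.HE Pool.Agent.R465.PC
open scoped Classical

/-- the value at `x` of the polynomial with the exponents `μ` and the coefficients `c` -/
def val {m : ℕ} {ι : Type} [Fintype ι] (μ : ι → Fin m → ℕ) (c : ι → ℤ) (x : Fin m → ℤ) : ℤ :=
  ∑ a, c a * ∏ l, x l ^ μ a l

/-- the exponents of the monomial `x_i ^ k * x_j ^ (d - k)` -/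
def ed {m : ℕ} (i j : Fin m) (d k : ℕ) : Fin m → ℕ :=
  fun l => if l = i then k else if l = j then d - k else 0

lemma prod_ed {m : ℕ} (i j : Fin m) (hij : i ≠ j) (d k : ℕ) (x : Fin m → ℤ) :
    ∏ l, x l ^ ed i j d k l = x i ^ k * x j ^ (d - k) := by
  have h1 : ∀ l, x l ^ ed i j d k l =
      (if l = i then x i ^ k else 1) * (if l = j then x j ^ (d - k) else 1) := by
    intro l
    unfold ed
    by_cases h : l = i
    · subst h
      simp [hij]
    · by_cases h' : l = j
      · subst h'
        simp [h]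
      · simp [h, h']
  rw [Finset.prod_congr rfl fun l _ => h1 l, Finset.prod_mul_distrib]
  simp

lemma fibre {m : ℕ} (d : ℕ) {ι : Type} [Fintype ι] (μ : ι → Fin m → ℕ) (i j : Fin m) (hij : i ≠ j)
    (hμ : ∀ k ≤ d, ∃ a, μ a = ed i j d k) (x : Fin m → ℤ) (hx : x i ≠ 0) (hle : |x j| ≤ |x i|)
    {H : ℝ} (hH : 1 ≤ H) (v : ℤ) (T : Finset (ι → ℤ))
    (hT : ∀ c ∈ T, (∀ a, |(c a : ℝ)| ≤ H) ∧ v + val μ c x = 0) :
    (T.card : ℝ) ≤ (3 * H) ^ (Fintype.card ι - (d + 1)) *
      (1 + ((2 * d + 8) * (H * (Int.gcd (x i) (x j) : ℝ) / |(x i : ℝ)|)) ^ d) := by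
  have hH0 : (0 : ℝ) ≤ H := by linarith
  have hsel : ∀ k : Fin (d + 1), ∃ a, μ a = ed i j d k := fun k => hμ k (Nat.lt_succ_iff.1 k.2)
  choose e he using hsel
  have hinj : Function.Injective e := by
    intro k k' h
    have h1 : ed i j d k i = ed i j d k' i := by rw [← he, ← he, h]
    simp only [ed, if_true] at h1
    exact Fin.ext h1
  set E : Finset ι := Finset.univ.image e with hE
  have hEc : E.card = d + 1 := by
    rw [hE, Finset.card_image_of_injective _ hinj, Finset.card_univ, Fintype.card_fin]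
  let R : Type := {a // a ∉ E}
  have hRc : Fintype.card R = Fintype.card ι - (d + 1) := by
    have h1 : Fintype.card R = Fintype.card ι - E.card := by
      rw [Fintype.card_subtype]
      have h2 : (Finset.univ.filter fun a => a ∉ E) = Eᶜ := by
        ext a; simp
      rw [h2, Finset.card_compl]
    rw [h1, hEc]
  let ρ : (ι → ℤ) → (R → ℤ) := fun c a => c a.1
  set bd : ℝ := 1 + ((2 * d + 8) * (H * (Int.gcd (x i) (x j) : ℝ) / |(x i : ℝ)|)) ^ d with hbd
  have hbd0 : 0 ≤ bd := by positivity
  have hfib : ∀ r ∈ T.image ρ, ((T.filter fun c => ρ c = r).card : ℝ) ≤ bd := by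
    intro r _
    set w : ℤ := -v - ∑ a : R, r a * ∏ l, x l ^ μ a.1 l with hw
    have hval : ∀ c ∈ T.filter (fun c => ρ c = r), bin d (fun k => c (e k)) ![x i, x j] = w := by
      intro c hc
      rw [Finset.mem_filter] at hc
      have h1 := (hT c hc.1).2
      have h2 : val μ c x = ∑ a ∈ E, c a * ∏ l, x l ^ μ a l + ∑ a ∈ Eᶜ, c a * ∏ l, x l ^ μ a l := by
        unfold val
        exact (Finset.sum_add_sum_compl E _).symm
      have h3 : ∑ a ∈ E, c a * ∏ l, x l ^ μ a l = bin d (fun k => c (e k)) ![x i, x j] := by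
        rw [hE, Finset.sum_image (fun a _ b _ h => hinj h)]
        unfold bin
        refine Finset.sum_congr rfl fun k _ => ?_
        rw [he, prod_ed i j hij]
        simp
      have h4 : ∑ a ∈ Eᶜ, c a * ∏ l, x l ^ μ a l = ∑ a : R, r a * ∏ l, x l ^ μ a.1 l := by
        rw [← hc.2]
        have h5 : (Eᶜ : Finset ι) = Finset.univ.filter fun a => a ∉ E := by ext a; simp
        rw [h5, Finset.sum_filter]
        rw [← Finset.sum_filter]
        exact (Finset.sum_subtype (p := fun a => a ∉ E) (Finset.univ.filter fun a => a ∉ E) (by simp)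
          (fun a => c a * ∏ l, x l ^ μ a l))
      rw [hw]
      linarith
    have hinj2 : Set.InjOn (fun c : ι → ℤ => fun k => c (e k)) (T.filter fun c => ρ c = r) := by
      intro c hc c' hc' h
      rw [Finset.coe_filter] at hc hc'
      funext a
      by_cases ha : a ∈ E
      · obtain ⟨k, -, rfl⟩ := Finset.mem_image.1 ha
        exact congrFun h k
      · have h1 := congrFun (hc.2.trans hc'.2.symm) ⟨a, ha⟩
        exact h1
    rw [← Finset.card_image_of_injOn hinj2]
    refine edge d (x i) (x j) hx hle hH0 w _ ?_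
    intro c' hc'
    obtain ⟨c, hc, rfl⟩ := Finset.mem_image.1 hc'
    refine ⟨hval c hc, fun k => ?_⟩
    exact (hT c (Finset.mem_filter.1 hc).1).1 (e k)
  have himg : ((T.image ρ).card : ℝ) ≤ (3 * H) ^ (Fintype.card ι - (d + 1)) := by
    set N : ℕ := ⌊H⌋₊ with hN
    have hNH : (N : ℝ) ≤ H := Nat.floor_le hH0
    have hsub : T.image ρ ⊆ Fintype.piFinset fun _ : R => Finset.Icc (-(N : ℤ)) N := by
      intro r hr
      obtain ⟨c, hc, rfl⟩ := Finset.mem_image.1 hr
      rw [Fintype.mem_piFinset]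
      intro a
      have h1 := (hT c hc).1 a.1
      have h2 : |c a.1| ≤ (N : ℤ) := by
        rw [hN, Int.natCast_floor_eq_floor hH0, Int.le_floor]
        push_cast
        exact h1
      rw [Finset.mem_Icc]
      exact abs_le.1 h2
    have h1 := Finset.card_le_card hsub
    rw [Fintype.card_piFinset, Finset.prod_const, Int.card_Icc, Finset.card_univ, hRc] at h1
    have h2 : ((N : ℤ) + 1 - -(N : ℤ)).toNat = 2 * N + 1 := by omega
    rw [h2] at h1
    calc ((T.image ρ).card : ℝ) ≤ (((2 * N + 1) ^ (Fintype.card ι - (d + 1)) : ℕ) : ℝ) := by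
          exact_mod_cast h1
      _ = (2 * (N : ℝ) + 1) ^ (Fintype.card ι - (d + 1)) := by push_cast; ring
      _ ≤ _ := by
          apply pow_le_pow_left₀ (by positivity)
          linarith
  have hsum : (T.card : ℝ) = ∑ r ∈ T.image ρ, ((T.filter fun c => ρ c = r).card : ℝ) := by
    have := Finset.card_eq_sum_card_image ρ T
    exact_mod_cast this
  rw [hsum]
  calc _ ≤ ∑ r ∈ T.image ρ, bd := Finset.sum_le_sum hfib
    _ = (T.image ρ).card * bd := by rw [Finset.sum_const, nsmul_eq_mul]
    _ ≤ _ := mul_le_mul_of_nonneg_right himg hbd0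

end Pool.Agent.R465.CI
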