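import Mathlib
import Pool.Agent.H510R2.Div

set_option autoImplicit false

/-!
# The points of projective space sorted by their largest coordinate and greatest common divisors
-/

namespace Pool.Agent.R465.CI

open scoped Classical

/-- no integer other than `±1` divides all coordinates -/
def Prim {n : ℕ} (x : Fin (n + 1) → ℤ) : Prop := ∀ q : ℤ, (∀ l, q ∣ x l) → IsUnit q

lemma ex_am {n : ℕ} (x : Fin (n + 1) → ℤ) : ∃ i, ∀ l, |x l| ≤ |x i| := by
  obtain ⟨i, -, hi⟩ := Finset.exists_max_image Finset.univ (fun l => |x l|) ⟨0, Finset.mem_univ 0⟩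
  exact ⟨i, fun l => hi l (Finset.mem_univ l)⟩

/-- the index of a coordinate of the largest absolute value -/
noncomputable def am {n : ℕ} (x : Fin (n + 1) → ℤ) : Fin (n + 1) := (ex_am x).choose

lemma am_spec {n : ℕ} (x : Fin (n + 1) → ℤ) : ∀ l, |x l| ≤ |x (am x)| := (ex_am x).choose_spec

/-- the largest absolute value of a coordinate -/
noncomputable def sz {n : ℕ} (x : Fin (n + 1) → ℤ) : ℕ := (x (am x)).natAbs

/-- the greatest common divisors of the largest coordinate and the others -/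
noncomputable def gc {n : ℕ} (x : Fin (n + 1) → ℤ) (l : Fin (n + 1)) : ℕ :=
  Int.gcd (x (am x)) (x l)

/-- the complementary divisors -/
noncomputable def hh {n : ℕ} (x : Fin (n + 1) → ℤ) (l : Fin (n + 1)) : ℕ := sz x / gc x l

/-- the largest complementary divisor -/
noncomputable def hm {n : ℕ} (x : Fin (n + 1) → ℤ) : ℕ := Finset.univ.sup (hh x)

variable {n : ℕ} {x : Fin (n + 1) → ℤ}

lemma prim_ne (hx : Prim x) : x (am x) ≠ 0 := by
  intro h
  have h1 : ∀ l, (2 : ℤ) ∣ x l := by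
    intro l
    have h2 := am_spec x l
    rw [h, abs_zero] at h2
    have h3 : x l = 0 := abs_nonpos_iff.1 h2
    rw [h3]
    exact dvd_zero _
  have := hx 2 h1
  rw [Int.isUnit_iff] at this
  omega

lemma sz_pos (hx : Prim x) : 0 < sz x := Int.natAbs_pos.2 (prim_ne hx)

lemma gc_dvd (x : Fin (n + 1) → ℤ) (l : Fin (n + 1)) : gc x l ∣ sz x := by
  unfold gc sz
  exact Int.gcd_dvd_natAbs_left _ _

lemma gc_pos (hx : Prim x) (l : Fin (n + 1)) : 0 < gc x l :=
  Int.gcd_pos_of_ne_zero_left _ (prim_ne hx)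

lemma gc_mul_hh (x : Fin (n + 1) → ℤ) (l : Fin (n + 1)) : gc x l * hh x l = sz x :=
  Nat.mul_div_cancel' (gc_dvd x l)

lemma hh_pos (hx : Prim x) (l : Fin (n + 1)) : 0 < hh x l := by
  have h1 := sz_pos hx
  rw [← gc_mul_hh x l] at h1
  exact Nat.pos_of_mul_pos_left h1

lemma hh_le (x : Fin (n + 1) → ℤ) (l : Fin (n + 1)) : hh x l ≤ hm x :=
  Finset.le_sup (f := hh x) (Finset.mem_univ l)

lemma hm_pos (hx : Prim x) : 0 < hm x := lt_of_lt_of_le (hh_pos hx 0) (hh_le x 0)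

lemma hh_am (hx : Prim x) : hh x (am x) = 1 := by
  have h1 : gc x (am x) = sz x := by
    unfold gc sz
    exact Int.gcd_self
  have h2 := gc_mul_hh x (am x)
  rw [h1] at h2
  exact Nat.eq_of_mul_eq_mul_left (sz_pos hx) (by rw [h2, mul_one])

lemma sz_dvd_prod (hx : Prim x) : sz x ∣ ∏ l, hh x l := by
  have h1 : ∀ l, ((sz x : ℕ) : ℤ) ∣ ((∏ l, hh x l : ℕ) : ℤ) * x l := by
    intro l
    rw [← Finset.mul_prod_erase Finset.univ (hh x) (Finset.mem_univ l)]
    have h2 : ((sz x : ℕ) : ℤ) ∣ (hh x l : ℤ) * x l := by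
      obtain ⟨m, hm⟩ : ((gc x l : ℕ) : ℤ) ∣ x l := Int.gcd_dvd_right ..
      refine ⟨m, ?_⟩
      have h3 : ((sz x : ℕ) : ℤ) = (gc x l : ℤ) * hh x l := by exact_mod_cast (gc_mul_hh x l).symm
      rw [h3]
      calc (hh x l : ℤ) * x l = (hh x l : ℤ) * ((gc x l : ℤ) * m) := by rw [← hm]
        _ = _ := by ring
    push_cast
    have h4 : (hh x l : ℤ) * (∏ i ∈ Finset.univ.erase l, (hh x i : ℤ)) * x l =
        ((hh x l : ℤ) * x l) * ∏ i ∈ Finset.univ.erase l, (hh x i : ℤ) := by ring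
    rw [h4]
    exact Dvd.dvd.mul_right h2 _
  have h2 : ((sz x : ℕ) : ℤ) ∣ Finset.univ.gcd (fun l => ((∏ l, hh x l : ℕ) : ℤ) * x l) :=
    Finset.dvd_gcd fun l _ => h1 l
  rw [Finset.gcd_mul_left] at h2
  have h3 : IsUnit (Finset.univ.gcd x) := hx _ fun l => Finset.gcd_dvd (Finset.mem_univ l)
  have h4 : ((sz x : ℕ) : ℤ) ∣ normalize ((∏ l, hh x l : ℕ) : ℤ) := (IsUnit.dvd_mul_right h3).1 h2
  have h5 : ((sz x : ℕ) : ℤ) ∣ ((∏ l, hh x l : ℕ) : ℤ) := dvd_normalize_iff.1 h4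
  exact_mod_cast h5

lemma prod_hh_le (hx : Prim x) : ∏ l, hh x l ≤ hm x ^ n := by
  rw [← Finset.mul_prod_erase Finset.univ (hh x) (Finset.mem_univ (am x)), hh_am hx, one_mul]
  calc ∏ l ∈ Finset.univ.erase (am x), hh x l ≤ ∏ _l ∈ Finset.univ.erase (am x), hm x :=
        Finset.prod_le_prod' fun l _ => hh_le x l
    _ = _ := by
        rw [Finset.prod_const, Finset.card_erase_of_mem (Finset.mem_univ _), Finset.card_univ,
          Fintype.card_fin, Nat.add_sub_cancel]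

lemma sz_le (hx : Prim x) : sz x ≤ hm x ^ n :=
  (Nat.le_of_dvd (Finset.prod_pos fun l _ => hh_pos hx l) (sz_dvd_prod hx)).trans (prod_hh_le hx)

/-- the largest complementary divisor belongs to an index different from `am x` -/
lemma ex_t (hx : Prim x) (hn : 1 ≤ n) : ∃ t, am x ≠ t ∧ hh x t = hm x := by
  obtain ⟨t, -, ht⟩ := Finset.exists_mem_eq_sup Finset.univ ⟨am x, Finset.mem_univ _⟩ (hh x)
  have ht' : hh x t = hm x := ht.symm
  by_cases h : am x = t
  · have h1 : hm x = 1 := by rw [← ht', ← h, hh_am hx]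
    obtain ⟨s, hs⟩ : ∃ s : Fin (n + 1), am x ≠ s := by
      have : Nontrivial (Fin (n + 1)) := Fin.nontrivial_iff_two_le.2 (by omega)
      obtain ⟨s, hs⟩ := exists_ne (am x)
      exact ⟨s, hs.symm⟩
    refine ⟨s, hs, ?_⟩
    have h2 := hh_le x s
    have h3 := hh_pos hx s
    omega
  · exact ⟨t, h, ht'⟩

/-- multiples of `p` in `[-a, a]` -/
lemma mult (a p : ℕ) (hp : 0 < p) (hpa : p ≤ a) (S : Finset ℤ)
    (hS : ∀ z ∈ S, (p : ℤ) ∣ z ∧ |z| ≤ a) : S.card ≤ 3 * (a / p) := by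
  have hsub : S ⊆ (Finset.Icc (-((a / p : ℕ) : ℤ)) ((a / p : ℕ) : ℤ)).image fun z => (p : ℤ) * z := by
    intro z hz
    obtain ⟨⟨w, rfl⟩, h2⟩ := hS z hz
    refine Finset.mem_image.2 ⟨w, ?_, rfl⟩
    rw [abs_mul, abs_of_pos (by exact_mod_cast hp : (0 : ℤ) < p)] at h2
    have h3 : |w| ≤ ((a / p : ℕ) : ℤ) := by
      have h4 : w.natAbs ≤ a / p := by
        rw [Nat.le_div_iff_mul_le hp]
        zify
        rw [mul_comm]
        exact h2
      rw [Int.abs_eq_natAbs]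
      exact_mod_cast h4
    rw [Finset.mem_Icc]
    exact abs_le.1 h3
  have h1 := (Finset.card_le_card hsub).trans Finset.card_image_le
  rw [Int.card_Icc] at h1
  have h2 : (((a / p : ℕ) : ℤ) + 1 - -((a / p : ℕ) : ℤ)).toNat = 2 * (a / p) + 1 := by omega
  rw [h2] at h1
  have h3 : 1 ≤ a / p := (Nat.one_le_div_iff hp).2 hpa
  omega

/-- the number of points with given size and given divisors -/
lemma fib_card (Z : Finset (Fin (n + 1) → ℤ)) (a : ℕ) (g : Fin (n + 1) → ℕ)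
    (hZ : ∀ x ∈ Z, Prim x ∧ sz x = a ∧ gc x = g) :
    Z.card ≤ 3 ^ (n + 1) * ∏ l, (a / g l) := by
  have hsub : Z ⊆ Fintype.piFinset fun l => Z.image fun x => x l := by
    intro x hx
    rw [Fintype.mem_piFinset]
    exact fun l => Finset.mem_image_of_mem _ hx
  refine (Finset.card_le_card hsub).trans ?_
  rw [Fintype.card_piFinset]
  have h1 : (3 : ℕ) ^ (n + 1) * ∏ l, (a / g l) = ∏ l : Fin (n + 1), 3 * (a / g l) := by
    rw [Finset.prod_mul_distrib, Finset.prod_const, Finset.card_univ, Fintype.card_fin]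
  rw [h1]
  refine Finset.prod_le_prod' fun l _ => ?_
  rcases Z.eq_empty_or_nonempty with he | ⟨x₀, hx₀⟩
  · rw [he]; simp
  · obtain ⟨hp, hs, hg⟩ := hZ x₀ hx₀
    refine mult a (g l) ?_ ?_ _ ?_
    · rw [← hg]; exact gc_pos hp l
    · rw [← hg, ← hs]; exact Nat.le_of_dvd (sz_pos hp) (gc_dvd x₀ l)
    · intro z hz
      obtain ⟨x, hx, rfl⟩ := Finset.mem_image.1 hz
      obtain ⟨-, hs', hg'⟩ := hZ x hx
      refine ⟨by rw [← hg']; exact Int.gcd_dvd_right .., ?_⟩
      have h2 := am_spec x l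
      rw [← hs']
      unfold sz
      rw [← Int.abs_eq_natAbs]
      exact h2

end Pool.Agent.R465.CI
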