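import Mathlib
import Pool.Agent.R465.CI.Key

set_option autoImplicit false

/-!
# The sum of the weights of the points
-/

namespace Pool.Agent.R465.CI

open scoped Classical

/-- the weight of a point -/
noncomputable def wt (n D : ℕ) (x : Fin (n + 1) → ℤ) : ℝ := (1 / (hm x : ℝ)) ^ D

lemma wt_nonneg (n D : ℕ) (x : Fin (n + 1) → ℤ) : 0 ≤ wt n D x := by unfold wt; positivity

lemma one_size (n D : ℕ) (hn : 1 ≤ n) (hD : n ≤ D) (Z : Finset (Fin (n + 1) → ℤ)) (a : ℕ)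
    (ha : 1 ≤ a) (hZ : ∀ x ∈ Z, Prim x ∧ sz x = a) :
    ∑ x ∈ Z, wt n D x ≤ 3 ^ (n + 1) * (a.divisors.card : ℝ) ^ (n + 1) *
      (a : ℝ) ^ (-(((D : ℝ) - n) / n)) := by
  have har : (0 : ℝ) < a := by exact_mod_cast ha
  have hnr : (0 : ℝ) < n := by exact_mod_cast hn
  let K : Finset (Fin (n + 1) → ℕ) := Fintype.piFinset fun _ => a.divisors
  have hmaps : ∀ x ∈ Z, gc x ∈ K := by
    intro x hx
    obtain ⟨hp, hs⟩ := hZ x hx
    rw [Fintype.mem_piFinset]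
    intro l
    rw [Nat.mem_divisors, ← hs]
    exact ⟨gc_dvd x l, (sz_pos hp).ne'⟩
  rw [← Finset.sum_fiberwise_of_maps_to hmaps]
  have hone : ∀ g ∈ K, ∑ x ∈ Z with gc x = g, wt n D x ≤
      3 ^ (n + 1) * (a : ℝ) ^ (-(((D : ℝ) - n) / n)) := by
    intro g _
    rcases (Z.filter fun x => gc x = g).eq_empty_or_nonempty with he | ⟨x₀, hx₀⟩
    · rw [he, Finset.sum_empty]; positivity
    · obtain ⟨hxZ, hxg⟩ := Finset.mem_filter.1 hx₀
      obtain ⟨hp, hs⟩ := hZ x₀ hxZ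
      have hcard := fib_card (Z.filter fun x => gc x = g) a g fun x hx =>
        ⟨(hZ x (Finset.mem_filter.1 hx).1).1, (hZ x (Finset.mem_filter.1 hx).1).2,
          (Finset.mem_filter.1 hx).2⟩
      have hh_eq : ∀ x ∈ Z.filter (fun x => gc x = g), ∀ l, hh x l = a / g l := by
        intro x hx l
        obtain ⟨h1, h2⟩ := Finset.mem_filter.1 hx
        unfold hh
        rw [(hZ x h1).2, h2]
      have hm_eq : ∀ x ∈ Z.filter (fun x => gc x = g), hm x = hm x₀ := by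
        intro x hx
        unfold hm
        have : hh x = hh x₀ := funext fun l => (hh_eq x hx l).trans (hh_eq x₀ hx₀ l).symm
        rw [this]
      have h0 : (0 : ℝ) < hm x₀ := by exact_mod_cast hm_pos hp
      have h1 : (1 : ℝ) ≤ hm x₀ := by exact_mod_cast hm_pos hp
      have hw : ∀ x ∈ Z.filter (fun x => gc x = g), wt n D x = (1 / (hm x₀ : ℝ)) ^ D := by
        intro x hx
        unfold wt
        rw [hm_eq x hx]
      have hcard2 : ((Z.filter fun x => gc x = g).card : ℝ) ≤ 3 ^ (n + 1) * (hm x₀ : ℝ) ^ n := by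
        have h2 : ∏ l, (a / g l) = ∏ l, hh x₀ l := Finset.prod_congr rfl fun l _ => (hh_eq x₀ hx₀ l).symm
        rw [h2] at hcard
        have h3 := hcard.trans (Nat.mul_le_mul_left _ (prod_hh_le hp))
        exact_mod_cast h3
      rw [Finset.sum_congr rfl hw, Finset.sum_const, nsmul_eq_mul]
      have hsz : (a : ℝ) ≤ (hm x₀ : ℝ) ^ n := by
        have := sz_le hp
        rw [hs] at this
        exact_mod_cast this
      have hroot : (a : ℝ) ^ (1 / (n : ℝ)) ≤ hm x₀ := by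
        calc (a : ℝ) ^ (1 / (n : ℝ)) ≤ ((hm x₀ : ℝ) ^ n) ^ (1 / (n : ℝ)) := by gcongr
          _ = hm x₀ := by
              rw [one_div]
              exact Real.pow_rpow_inv_natCast h0.le (by omega)
      have hDn : (hm x₀ : ℝ) ^ n * (1 / (hm x₀ : ℝ)) ^ D = ((hm x₀ : ℝ) ^ (D - n))⁻¹ := by
        have h4 : (hm x₀ : ℝ) ^ D = (hm x₀ : ℝ) ^ n * (hm x₀ : ℝ) ^ (D - n) := by
          rw [← pow_add]
          congr 1
          omega
        rw [one_div, inv_pow, h4]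
        field_simp
      have hfin : ((hm x₀ : ℝ) ^ (D - n))⁻¹ ≤ (a : ℝ) ^ (-(((D : ℝ) - n) / n)) := by
        rw [Real.rpow_neg har.le]
        have h5 : (a : ℝ) ^ (((D : ℝ) - n) / n) ≤ (hm x₀ : ℝ) ^ (D - n) := by
          calc (a : ℝ) ^ (((D : ℝ) - n) / n) = ((a : ℝ) ^ (1 / (n : ℝ))) ^ (D - n) := by
                rw [← Real.rpow_natCast, ← Real.rpow_mul har.le, Nat.cast_sub hD]
                congr 1
                ring
            _ ≤ _ := pow_le_pow_left₀ (by positivity) hroot _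
        have h6 : (0 : ℝ) < (a : ℝ) ^ (((D : ℝ) - n) / n) := Real.rpow_pos_of_pos har _
        exact inv_anti₀ h6 h5
      calc ((Z.filter fun x => gc x = g).card : ℝ) * (1 / (hm x₀ : ℝ)) ^ D
          ≤ 3 ^ (n + 1) * (hm x₀ : ℝ) ^ n * (1 / (hm x₀ : ℝ)) ^ D := by gcongr
        _ = 3 ^ (n + 1) * ((hm x₀ : ℝ) ^ n * (1 / (hm x₀ : ℝ)) ^ D) := by ring
        _ = 3 ^ (n + 1) * ((hm x₀ : ℝ) ^ (D - n))⁻¹ := by rw [hDn]
        _ ≤ _ := by gcongr
  calc ∑ g ∈ K, ∑ x ∈ Z with gc x = g, wt n D x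
      ≤ ∑ g ∈ K, (3 ^ (n + 1) * (a : ℝ) ^ (-(((D : ℝ) - n) / n)) : ℝ) := Finset.sum_le_sum hone
    _ = K.card * (3 ^ (n + 1) * (a : ℝ) ^ (-(((D : ℝ) - n) / n))) := by
        rw [Finset.sum_const, nsmul_eq_mul]
    _ = _ := by
        have : (K.card : ℝ) = (a.divisors.card : ℝ) ^ (n + 1) := by
          simp only [K, Fintype.card_piFinset, Finset.prod_const, Finset.card_univ, Fintype.card_fin]
          push_cast
          ring
        rw [this]
        ring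

/-- the exponent of `B` in the main term -/
noncomputable def th (n D : ℕ) : ℝ := max 0 ((2 * (n : ℝ) - D) / n)

lemma wt_sum (n D : ℕ) (hn : 1 ≤ n) (hD : n ≤ D) {ε : ℝ} (hε : 0 < ε) :
    ∃ C : ℝ, 0 < C ∧ ∀ (N : ℕ) (_ : 1 ≤ N) (Z : Finset (Fin (n + 1) → ℤ)),
    (∀ x ∈ Z, Prim x ∧ sz x ≤ N) → ∑ x ∈ Z, wt n D x ≤ C * (N : ℝ) ^ (th n D + ε) := by
  obtain ⟨E, hE, hdiv⟩ := Pool.Agent.H510R2.divisor_bound (ε / (2 * (n + 1))) (by positivity)
  refine ⟨3 ^ (n + 1) * E ^ (n + 1) * (1 + 2 / ε), by positivity, fun N hN Z hZ => ?_⟩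
  have hnr : (0 : ℝ) < n := by exact_mod_cast hn
  have hNr : (1 : ℝ) ≤ N := by exact_mod_cast hN
  have hN0 : (0 : ℝ) < N := by linarith
  have hth : 0 ≤ th n D := le_max_left _ _
  have hmaps : ∀ x ∈ Z, sz x ∈ Finset.Icc 1 N := fun x hx =>
    Finset.mem_Icc.2 ⟨sz_pos (hZ x hx).1, (hZ x hx).2⟩
  rw [← Finset.sum_fiberwise_of_maps_to hmaps]
  have hone : ∀ a ∈ Finset.Icc 1 N, ∑ x ∈ Z with sz x = a, wt n D x ≤
      3 ^ (n + 1) * E ^ (n + 1) * (N : ℝ) ^ (th n D + ε / 2) * ((a : ℝ))⁻¹ := by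
    intro a ha
    obtain ⟨ha1, haN⟩ := Finset.mem_Icc.1 ha
    have har : (1 : ℝ) ≤ a := by exact_mod_cast ha1
    have ha0 : (0 : ℝ) < a := by linarith
    have haNr : (a : ℝ) ≤ N := by exact_mod_cast haN
    have h1 := one_size n D hn hD (Z.filter fun x => sz x = a) a ha1 fun x hx =>
      ⟨(hZ x (Finset.mem_filter.1 hx).1).1, (Finset.mem_filter.1 hx).2⟩
    have h2 := hdiv a ha1
    have h3 : (a.divisors.card : ℝ) ^ (n + 1) ≤ E ^ (n + 1) * (N : ℝ) ^ (ε / 2) := by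
      calc (a.divisors.card : ℝ) ^ (n + 1) ≤ (E * (a : ℝ) ^ (ε / (2 * (n + 1)))) ^ (n + 1) := by
            gcongr
        _ = E ^ (n + 1) * ((a : ℝ) ^ (ε / (2 * (n + 1)))) ^ (n + 1) := by rw [mul_pow]
        _ = E ^ (n + 1) * (a : ℝ) ^ (ε / 2) := by
            congr 1
            rw [← Real.rpow_natCast, ← Real.rpow_mul ha0.le]
            congr 1
            push_cast
            field_simp
        _ ≤ _ := by gcongr
    have h4 : (a : ℝ) ^ (-(((D : ℝ) - n) / n)) ≤ (N : ℝ) ^ (th n D) * (a : ℝ)⁻¹ := by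
      have h5 : -(((D : ℝ) - n) / n) = (2 * (n : ℝ) - D) / n + (-1) := by field_simp; ring
      rw [h5, Real.rpow_add ha0, Real.rpow_neg_one]
      gcongr
      calc (a : ℝ) ^ ((2 * (n : ℝ) - D) / n) ≤ (a : ℝ) ^ (th n D) :=
            Real.rpow_le_rpow_of_exponent_le har (le_max_right _ _)
        _ ≤ _ := by gcongr
    calc _ ≤ 3 ^ (n + 1) * (a.divisors.card : ℝ) ^ (n + 1) * (a : ℝ) ^ (-(((D : ℝ) - n) / n)) := h1
      _ ≤ 3 ^ (n + 1) * (E ^ (n + 1) * (N : ℝ) ^ (ε / 2)) * ((N : ℝ) ^ (th n D) * (a : ℝ)⁻¹) := by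
          gcongr
      _ = 3 ^ (n + 1) * E ^ (n + 1) * ((N : ℝ) ^ (th n D) * (N : ℝ) ^ (ε / 2)) * (a : ℝ)⁻¹ := by ring
      _ = _ := by rw [← Real.rpow_add hN0]
  refine (Finset.sum_le_sum hone).trans ?_
  rw [← Finset.mul_sum]
  have hharm : ∑ a ∈ Finset.Icc 1 N, ((a : ℝ))⁻¹ ≤ 1 + Real.log N := by
    have h1 := harmonic_le_one_add_log N
    rw [harmonic_eq_sum_Icc] at h1
    push_cast at h1
    exact h1
  have hlog : Real.log N ≤ (N : ℝ) ^ (ε / 2) / (ε / 2) := Real.log_le_rpow_div hN0.le (by positivity)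
  have hNe : (1 : ℝ) ≤ (N : ℝ) ^ (ε / 2) := Real.one_le_rpow hNr (by positivity)
  have h4 : ∑ a ∈ Finset.Icc 1 N, ((a : ℝ))⁻¹ ≤ (1 + 2 / ε) * (N : ℝ) ^ (ε / 2) := by
    refine hharm.trans ?_
    have h5 : (N : ℝ) ^ (ε / 2) / (ε / 2) = 2 / ε * (N : ℝ) ^ (ε / 2) := by field_simp
    rw [h5] at hlog
    linarith
  calc 3 ^ (n + 1) * E ^ (n + 1) * (N : ℝ) ^ (th n D + ε / 2) * ∑ a ∈ Finset.Icc 1 N, ((a : ℝ))⁻¹
      ≤ 3 ^ (n + 1) * E ^ (n + 1) * (N : ℝ) ^ (th n D + ε / 2) *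
          ((1 + 2 / ε) * (N : ℝ) ^ (ε / 2)) := by gcongr
    _ = 3 ^ (n + 1) * E ^ (n + 1) * (1 + 2 / ε) *
          ((N : ℝ) ^ (th n D + ε / 2) * (N : ℝ) ^ (ε / 2)) := by ring
    _ = _ := by
        rw [← Real.rpow_add hN0]
        congr 2
        ring

end Pool.Agent.R465.CI
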