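import Mathlib
import Pool.Agent.R465.CI.Fam
import Pool.Agent.R465.CI.Sum

set_option autoImplicit false

/-!
# The number of pairs of a system of a thin family and a common zero of bounded height
-/

namespace Pool.Agent.R465.CI

open scoped Classical

lemma card_ge {n d : ℕ} (hn : 1 ≤ n) {ι : Type} [Fintype ι] (μ : ι → Fin (n + 1) → ℕ)
    (hμ : ∀ i j : Fin (n + 1), i ≠ j → ∀ k ≤ d, ∃ a, μ a = ed i j d k) :
    d + 1 ≤ Fintype.card ι := by
  have : Nontrivial (Fin (n + 1)) := Fin.nontrivial_iff_two_le.2 (by omega)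
  obtain ⟨s, hs⟩ := exists_ne (0 : Fin (n + 1))
  have hsel : ∀ k : Fin (d + 1), ∃ a, μ a = ed 0 s d k :=
    fun k => hμ 0 s hs.symm k (Nat.lt_succ_iff.1 k.2)
  choose e he using hsel
  have hinj : Function.Injective e := by
    intro k k' h
    have h1 : ed 0 s d k 0 = ed 0 s d k' 0 := by rw [← he, ← he, h]
    simp only [ed, if_true] at h1
    exact Fin.ext h1
  have := Fintype.card_le_of_injective e hinj
  rwa [Fintype.card_fin] at this

/-- the number of systems at one point -/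
lemma fibre_all {n r : ℕ} (hn : 1 ≤ n) (d : Fin r → ℕ) (ι : Fin r → Type) [∀ j, Fintype (ι j)]
    (μ : ∀ j, ι j → Fin (n + 1) → ℕ)
    (hμ : ∀ j, ∀ i l : Fin (n + 1), i ≠ l → ∀ k ≤ d j, ∃ a, μ j a = ed i l (d j) k)
    {x : Fin (n + 1) → ℤ} (hx : Prim x) {H : ℝ} (hH : 1 ≤ H) (v : Fin r → ℤ)
    (S : Finset (∀ j, ι j → ℤ))
    (hS : ∀ c ∈ S, ∀ j, (∀ a, |(c j a : ℝ)| ≤ H) ∧ v j + val (μ j) (c j) x = 0)
    (D L : ℕ) (K : ℝ) (hD : D = ∑ j, d j) (hL : L = ∑ j, (Fintype.card (ι j) - (d j + 1)))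
    (hK : K = 2 * (∑ j, (d j : ℝ)) + 8) :
    (S.card : ℝ) ≤ (3 * H) ^ L * (2 ^ r * (1 + K ^ D * H ^ D * wt n D x)) := by
  obtain ⟨t, ht, hht⟩ := ex_t hx hn
  have hH0 : (0 : ℝ) < H := by linarith
  have hm0 : (0 : ℝ) < hm x := by exact_mod_cast hm_pos hx
  have hK0 : 0 < K := by
    have : (0 : ℝ) ≤ ∑ j, (d j : ℝ) := Finset.sum_nonneg fun j _ => Nat.cast_nonneg _
    linarith
  obtain ⟨y, hy⟩ : ∃ y : ℝ, y = max 1 (K * (H / hm x)) := ⟨_, rfl⟩
  have hy1 : 1 ≤ y := by rw [hy]; exact le_max_left _ _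
  have hsub : S ⊆ Fintype.piFinset fun j => S.image fun c => c j := by
    intro c hc
    rw [Fintype.mem_piFinset]
    exact fun j => Finset.mem_image_of_mem _ hc
  have h1 := Finset.card_le_card hsub
  rw [Fintype.card_piFinset] at h1
  have hg : H * (Int.gcd (x (am x)) (x t) : ℝ) / |(x (am x) : ℝ)| = H / hm x := by
    have h2 : (Int.gcd (x (am x)) (x t) : ℝ) = gc x t := rfl
    have h3 : |(x (am x) : ℝ)| = sz x := by
      unfold sz
      rw [← Int.cast_abs, Int.abs_eq_natAbs]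
      rfl
    have h4 : (sz x : ℝ) = gc x t * hm x := by
      rw [← hht]
      exact_mod_cast (gc_mul_hh x t).symm
    have h5 : (0 : ℝ) < gc x t := by exact_mod_cast gc_pos hx t
    rw [h2, h3, h4]
    field_simp
  have hone : ∀ j, ((S.image fun c => c j).card : ℝ) ≤
      (3 * H) ^ (Fintype.card (ι j) - (d j + 1)) * (2 * y ^ d j) := by
    intro j
    have h2 := fibre (d j) (μ j) (am x) t ht (hμ j _ _ ht) x (prim_ne hx) (am_spec x t) hH (v j)
      (S.image fun c => c j) (by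
        intro c' hc'
        obtain ⟨c, hc, rfl⟩ := Finset.mem_image.1 hc'
        exact hS c hc j)
    rw [hg] at h2
    refine h2.trans ?_
    gcongr
    have h3 : (1 : ℝ) ≤ y ^ d j := one_le_pow₀ hy1
    have h4 : ((2 * (d j : ℝ) + 8) * (H / hm x)) ^ d j ≤ y ^ d j := by
      apply pow_le_pow_left₀ (by positivity)
      rw [hy]
      refine le_trans ?_ (le_max_right _ _)
      apply mul_le_mul_of_nonneg_right _ (by positivity)
      have : (d j : ℝ) ≤ ∑ j, (d j : ℝ) :=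
        Finset.single_le_sum (f := fun j => (d j : ℝ)) (fun j _ => Nat.cast_nonneg _)
          (Finset.mem_univ j)
      linarith
    linarith
  have hyD : y ^ D ≤ 1 + K ^ D * H ^ D * wt n D x := by
    have e1 : K ^ D * H ^ D * wt n D x = (K * (H / hm x)) ^ D := by
      unfold wt
      rw [← mul_pow, ← mul_pow]
      congr 1
      ring
    rw [e1]
    have e2 : 0 ≤ K * (H / hm x) := by positivity
    rcases max_choice 1 (K * (H / hm x)) with h | h
    · rw [hy, h, one_pow]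
      have : 0 ≤ (K * (H / hm x)) ^ D := by positivity
      linarith
    · rw [hy, h]
      linarith
  calc (S.card : ℝ) ≤ ((∏ j, (S.image fun c => c j).card : ℕ) : ℝ) := by exact_mod_cast h1
    _ = ∏ j, ((S.image fun c => c j).card : ℝ) := by push_cast; rfl
    _ ≤ ∏ j, ((3 * H) ^ (Fintype.card (ι j) - (d j + 1)) * (2 * y ^ d j)) :=
        Finset.prod_le_prod (fun j _ => Nat.cast_nonneg _) fun j _ => hone j
    _ = (3 * H) ^ L * (2 ^ r * y ^ D) := by
        rw [Finset.prod_mul_distrib, Finset.prod_mul_distrib, Finset.prod_pow_eq_pow_sum,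
          Finset.prod_pow_eq_pow_sum, Finset.prod_const, Finset.card_univ, Fintype.card_fin,
          ← hD, ← hL]
    _ ≤ _ := by gcongr

theorem main {n r : ℕ} (hn : 1 ≤ n) (d : Fin r → ℕ) (ι : Fin r → Type) [∀ j, Fintype (ι j)]
    (μ : ∀ j, ι j → Fin (n + 1) → ℕ)
    (hμ : ∀ j, ∀ i l : Fin (n + 1), i ≠ l → ∀ k ≤ d j, ∃ a, μ j a = ed i l (d j) k)
    (D M : ℕ) (hD : D = ∑ j, d j) (hM : M = ∑ j, Fintype.card (ι j)) (hd : n ≤ D)
    {ε : ℝ} (hε : 0 < ε) :
    ∃ C : ℝ, 0 < C ∧ ∀ (G : Fin r → (Fin (n + 1) → ℤ) → ℤ) (H B : ℝ), 1 ≤ H → 1 ≤ B →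
      ∀ P : Finset ((∀ j, ι j → ℤ) × (Fin (n + 1) → ℤ)), (∀ p ∈ P, Prim p.2 ∧
        (∀ l, |(p.2 l : ℝ)| ≤ B) ∧
        ∀ j, (∀ a, |(p.1 j a : ℝ)| ≤ H) ∧ G j p.2 + val (μ j) (p.1 j) p.2 = 0) →
      (P.card : ℝ) ≤ C * B ^ ε *
        (H ^ (M - r) * B ^ (th n D) + H ^ (M - (D + r)) * B ^ (n + 1)) := by
  obtain ⟨W, hW, hsum⟩ := wt_sum n D hn hd hε
  obtain ⟨K, hK⟩ : ∃ K : ℝ, K = 2 * (∑ j, (d j : ℝ)) + 8 := ⟨_, rfl⟩
  have hK0 : 0 < K := by
    have : (0 : ℝ) ≤ ∑ j, (d j : ℝ) := Finset.sum_nonneg fun j _ => Nat.cast_nonneg _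
    linarith
  obtain ⟨L, hL⟩ : ∃ L : ℕ, L = ∑ j, (Fintype.card (ι j) - (d j + 1)) := ⟨_, rfl⟩
  have hLM : L + (D + r) = M := by
    have h1 : ∀ j, (Fintype.card (ι j) - (d j + 1)) + (d j + 1) = Fintype.card (ι j) := fun j =>
      Nat.sub_add_cancel (card_ge hn (μ j) (hμ j))
    rw [hM, ← Finset.sum_congr rfl fun j _ => h1 j, Finset.sum_add_distrib, Finset.sum_add_distrib]
    simp only [Finset.sum_const, Finset.card_univ, Fintype.card_fin, smul_eq_mul, mul_one]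
    rw [hL, hD]
  have hth : 0 ≤ th n D := le_max_left _ _
  refine ⟨3 ^ L * 2 ^ r * (3 ^ (n + 1) + K ^ D * W), by positivity, fun G H B hH hB P hP => ?_⟩
  have hH0 : (0 : ℝ) < H := by linarith
  have hB0 : (0 : ℝ) < B := by linarith
  set N : ℕ := ⌊B⌋₊ with hN
  have hNB : (N : ℝ) ≤ B := Nat.floor_le hB0.le
  have hN1 : 1 ≤ N := Nat.le_floor (by simpa using hB)
  set Z : Finset (Fin (n + 1) → ℤ) := P.image Prod.snd with hZ
  have hZp : ∀ x ∈ Z, Prim x ∧ ∀ l, |x l| ≤ (N : ℤ) := by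
    intro x hx
    obtain ⟨p, hp, rfl⟩ := Finset.mem_image.1 hx
    refine ⟨(hP p hp).1, fun l => ?_⟩
    have h1 := (hP p hp).2.1 l
    rw [hN, Int.natCast_floor_eq_floor hB0.le, Int.le_floor]
    push_cast
    exact h1
  have hZs : ∀ x ∈ Z, Prim x ∧ sz x ≤ N := by
    intro x hx
    refine ⟨(hZp x hx).1, ?_⟩
    have h1 := (hZp x hx).2 (am x)
    unfold sz
    rw [Int.abs_eq_natAbs] at h1
    exact_mod_cast h1
  have hone : ∀ x ∈ Z, ((P.filter fun p => p.2 = x).card : ℝ) ≤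
      (3 * H) ^ L * (2 ^ r * (1 + K ^ D * H ^ D * wt n D x)) := by
    intro x hx
    obtain ⟨hpx, -⟩ := hZs x hx
    have hinj : Set.InjOn (fun p : (∀ j, ι j → ℤ) × (Fin (n + 1) → ℤ) => p.1)
        (P.filter fun p => p.2 = x) := by
      intro p hp q hq h
      have hp' := (Finset.mem_filter.1 hp).2
      have hq' := (Finset.mem_filter.1 hq).2
      exact Prod.ext h (hp'.trans hq'.symm)
    obtain ⟨S, hS⟩ : ∃ S : Finset (∀ j, ι j → ℤ), S = (P.filter fun p => p.2 = x).image fun p => p.1 :=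
      ⟨_, rfl⟩
    have hcard : S.card = (P.filter fun p => p.2 = x).card := by
      rw [hS]
      exact Finset.card_image_of_injOn hinj
    have hSc : ∀ c ∈ S, ∀ j, (∀ a, |(c j a : ℝ)| ≤ H) ∧ G j x + val (μ j) (c j) x = 0 := by
      intro c hc j
      rw [hS] at hc
      obtain ⟨p, hp, rfl⟩ := Finset.mem_image.1 hc
      obtain ⟨hpP, hpx2⟩ := Finset.mem_filter.1 hp
      have h1 := (hP p hpP).2.2 j
      rw [hpx2] at h1
      exact h1
    rw [← hcard]
    exact fibre_all hn d ι μ hμ hpx hH (fun j => G j x) S hSc D L K hD hL hK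
  have hZc : (Z.card : ℝ) ≤ 3 ^ (n + 1) * B ^ (n + 1) := by
    have hsub : Z ⊆ Fintype.piFinset fun _ : Fin (n + 1) => Finset.Icc (-(N : ℤ)) N := by
      intro x hx
      rw [Fintype.mem_piFinset]
      intro l
      rw [Finset.mem_Icc]
      exact abs_le.1 ((hZp x hx).2 l)
    have h1 := Finset.card_le_card hsub
    rw [Fintype.card_piFinset, Finset.prod_const, Int.card_Icc, Finset.card_univ,
      Fintype.card_fin] at h1
    have h2 : ((N : ℤ) + 1 - -(N : ℤ)).toNat = 2 * N + 1 := by omega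
    rw [h2] at h1
    have h3 : (Z.card : ℝ) ≤ (2 * (N : ℝ) + 1) ^ (n + 1) := by exact_mod_cast h1
    calc (Z.card : ℝ) ≤ (2 * (N : ℝ) + 1) ^ (n + 1) := h3
      _ ≤ (3 * B) ^ (n + 1) := by gcongr; linarith
      _ = _ := by rw [mul_pow]
  have hws : ∑ x ∈ Z, wt n D x ≤ W * B ^ (th n D + ε) := by
    refine (hsum N hN1 Z hZs).trans ?_
    gcongr
  have hsumP : (P.card : ℝ) = ∑ x ∈ Z, ((P.filter fun p => p.2 = x).card : ℝ) := by
    have := Finset.card_eq_sum_card_image Prod.snd P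
    exact_mod_cast this
  have hBe : (1 : ℝ) ≤ B ^ ε := Real.one_le_rpow hB hε.le
  have hBt : (0 : ℝ) ≤ B ^ th n D := by positivity
  rw [hsumP]
  calc _ ≤ ∑ x ∈ Z, (3 * H) ^ L * (2 ^ r * (1 + K ^ D * H ^ D * wt n D x)) :=
        Finset.sum_le_sum hone
    _ = (3 * H) ^ L * (2 ^ r * (Z.card + K ^ D * H ^ D * ∑ x ∈ Z, wt n D x)) := by
        rw [← Finset.mul_sum, ← Finset.mul_sum, Finset.sum_add_distrib, ← Finset.mul_sum,
          Finset.sum_const, nsmul_eq_mul, mul_one]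
    _ ≤ (3 * H) ^ L * (2 ^ r * (3 ^ (n + 1) * B ^ (n + 1) +
          K ^ D * H ^ D * (W * B ^ (th n D + ε)))) := by gcongr
    _ = (3 * H) ^ L * (2 ^ r * (3 ^ (n + 1) * B ^ (n + 1) +
          K ^ D * H ^ D * (W * (B ^ th n D * B ^ ε)))) := by rw [Real.rpow_add hB0]
    _ ≤ (3 * H) ^ L * (2 ^ r * ((3 ^ (n + 1) + K ^ D * W) * B ^ ε *
          (H ^ D * B ^ th n D + B ^ (n + 1)))) := by
        apply mul_le_mul_of_nonneg_left _ (by positivity)
        apply mul_le_mul_of_nonneg_left _ (by positivity)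
        have e1 : (0 : ℝ) ≤ K ^ D * W := by positivity
        have e2 : (0 : ℝ) ≤ H ^ D * B ^ th n D := by positivity
        have e3 : (0 : ℝ) ≤ B ^ (n + 1) := by positivity
        have e4 : B ^ (n + 1) ≤ B ^ ε * B ^ (n + 1) := le_mul_of_one_le_left e3 hBe
        have e8 : (0 : ℝ) < 3 ^ (n + 1) := by positivity
        have e6 : 0 ≤ B ^ ε * (H ^ D * B ^ th n D) := by positivity
        have e7 : 0 ≤ K ^ D * W * (B ^ ε * B ^ (n + 1)) := by positivity
        have e9 : (3 : ℝ) ^ (n + 1) * B ^ (n + 1) ≤ 3 ^ (n + 1) * (B ^ ε * B ^ (n + 1)) := by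
          gcongr
        have e10 : 0 ≤ (3 : ℝ) ^ (n + 1) * (B ^ ε * (H ^ D * B ^ th n D)) := by positivity
        calc 3 ^ (n + 1) * B ^ (n + 1) + K ^ D * H ^ D * (W * (B ^ th n D * B ^ ε))
            ≤ 3 ^ (n + 1) * (B ^ ε * B ^ (n + 1)) +
                K ^ D * W * (B ^ ε * (H ^ D * B ^ th n D)) := by
              have : K ^ D * H ^ D * (W * (B ^ th n D * B ^ ε)) =
                K ^ D * W * (B ^ ε * (H ^ D * B ^ th n D)) := by ring
              rw [this]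
              linarith
          _ ≤ _ := by
              have : (3 ^ (n + 1) + K ^ D * W) * B ^ ε * (H ^ D * B ^ th n D + B ^ (n + 1)) =
                (3 ^ (n + 1) * (B ^ ε * B ^ (n + 1)) + K ^ D * W * (B ^ ε * (H ^ D * B ^ th n D))) +
                (3 ^ (n + 1) * (B ^ ε * (H ^ D * B ^ th n D)) +
                  K ^ D * W * (B ^ ε * B ^ (n + 1))) := by ring
              rw [this]
              linarith
    _ = 3 ^ L * 2 ^ r * (3 ^ (n + 1) + K ^ D * W) * B ^ ε *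
          (H ^ L * H ^ D * B ^ th n D + H ^ L * B ^ (n + 1)) := by
        rw [mul_pow]
        ring
    _ = _ := by
        rw [← pow_add]
        have h5 : M - r = L + D := by omega
        have h6 : M - (D + r) = L := by omega
        rw [h5, h6]

end Pool.Agent.R465.CI
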