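import Mathlib
import Pool.Agent.R465.CI.Main

set_option autoImplicit false

/-!
# Consequences: most systems have no common zero of small height
-/

namespace Pool.Agent.R465.CI

open scoped Classical

lemma finite_of_card {α : Type} (V : Set α) (b : ℝ)
    (h : ∀ T : Finset α, (T : Set α) ⊆ V → (T.card : ℝ) ≤ b) : V.Finite ∧ (V.ncard : ℝ) ≤ b := by
  have hfin : V.Finite := by
    by_contra hinf
    change V.Infinite at hinf
    obtain ⟨T, hT1, hT2⟩ := hinf.exists_subset_card_eq (⌈b⌉₊ + 1)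
    have h3 := h T hT1
    rw [hT2] at h3
    have h4 := Nat.le_ceil b
    push_cast at h3
    linarith
  refine ⟨hfin, ?_⟩
  rw [Set.ncard_eq_toFinset_card _ hfin]
  exact h _ (by rw [Set.Finite.coe_toFinset])

lemma sum_le {n r : ℕ} (hn : 1 ≤ n) (d : Fin r → ℕ) (ι : Fin r → Type) [∀ j, Fintype (ι j)]
    (μ : ∀ j, ι j → Fin (n + 1) → ℕ)
    (hμ : ∀ j, ∀ i l : Fin (n + 1), i ≠ l → ∀ k ≤ d j, ∃ a, μ j a = ed i l (d j) k) :
    (∑ j, d j) + r ≤ ∑ j, Fintype.card (ι j) := by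
  calc (∑ j, d j) + r = ∑ j, (d j + 1) := by
        rw [Finset.sum_add_distrib]
        simp
    _ ≤ _ := Finset.sum_le_sum fun j _ => card_ge hn (μ j) (hμ j)

/-- the exponents -/
lemma expo (n D : ℕ) (hn : 2 ≤ n) (hD : n + 2 ≤ D) :
    th n D * (((D : ℝ) + (n - 1)) / (n + 1)) < (n : ℝ) - 1 := by
  have hnr : (2 : ℝ) ≤ n := by exact_mod_cast hn
  have hDr : (n : ℝ) + 2 ≤ D := by exact_mod_cast hD
  have hn0 : (0 : ℝ) < n := by linarith
  unfold th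
  rcases le_total ((2 * (n : ℝ) - D) / n) 0 with h | h
  · rw [max_eq_left h, zero_mul]
    linarith
  · rw [max_eq_right h]
    have h1 : 0 ≤ 2 * (n : ℝ) - D := by
      rw [div_nonneg_iff] at h
      rcases h with h | h
      · exact h.1
      · linarith
    have h2 : (2 * (n : ℝ) - D) * ((D : ℝ) + (n - 1)) ≤ (n - 2) * (3 * n - 1) := by
      apply mul_le_mul <;> linarith
    have h3 : ((n : ℝ) - 2) * (3 * n - 1) < (n - 1) * (n * (n + 1)) := by nlinarith [sq_nonneg ((n : ℝ) - 2), mul_pos hn0 hn0]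
    rw [div_mul_div_comm, div_lt_iff₀ (by positivity)]
    linarith

theorem almost {n r : ℕ} (hn : 2 ≤ n) (hr : r = n - 1) (d : Fin r → ℕ) (ι : Fin r → Type)
    [∀ j, Fintype (ι j)] (μ : ∀ j, ι j → Fin (n + 1) → ℕ)
    (hμ : ∀ j, ∀ i l : Fin (n + 1), i ≠ l → ∀ k ≤ d j, ∃ a, μ j a = ed i l (d j) k)
    (D M : ℕ) (hD : D = ∑ j, d j) (hM : M = ∑ j, Fintype.card (ι j)) (hd : n + 2 ≤ D)
    {δ : ℝ} (hδ : 0 < δ) :
    ∃ η : ℝ, 0 < η ∧ ∃ C : ℝ, 0 < C ∧ ∀ (G : Fin r → (Fin (n + 1) → ℤ) → ℤ) (H : ℝ), 1 ≤ H →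
      ∀ T : Finset (∀ j, ι j → ℤ), (∀ c ∈ T, (∀ j a, |(c j a : ℝ)| ≤ H) ∧ ∃ x : Fin (n + 1) → ℤ,
        Prim x ∧ (∀ l, |(x l : ℝ)| ≤ H ^ (((D : ℝ) + (n - 1)) / (n + 1) - δ)) ∧
        ∀ j, G j x + val (μ j) (c j) x = 0) →
      (T.card : ℝ) ≤ C * H ^ ((M : ℝ) - η) := by
  have hnr : (2 : ℝ) ≤ n := by exact_mod_cast hn
  have hDr : (n : ℝ) + 2 ≤ D := by exact_mod_cast hd
  have hrr : (r : ℝ) = n - 1 := by rw [hr, Nat.cast_sub (by omega)]; push_cast; ring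
  obtain ⟨E, hE⟩ : ∃ E : ℝ, E = ((D : ℝ) + (n - 1)) / (n + 1) := ⟨_, rfl⟩
  have hE0 : 0 < E := by rw [hE]; apply div_pos <;> linarith
  have hEn : ((n : ℝ) + 1) * E = D + (n - 1) := by rw [hE]; field_simp
  have hex := expo n D hn hd
  rw [← hE] at hex
  have hth : 0 ≤ th n D := le_max_left _ _
  obtain ⟨e, he⟩ : ∃ e : ℝ, e = max 0 (E - δ) := ⟨_, rfl⟩
  have he0 : 0 ≤ e := by rw [he]; exact le_max_left _ _
  have heE : e ≤ E := by rw [he]; exact max_le hE0.le (by linarith)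
  obtain ⟨δ', hδ'⟩ : ∃ δ' : ℝ, δ' = min (((n : ℝ) + 1) * δ) (D + (n - 1)) := ⟨_, rfl⟩
  have hδ'0 : 0 < δ' := by rw [hδ']; exact lt_min (by positivity) (by linarith)
  have hne : ((n : ℝ) + 1) * e ≤ D + (n - 1) - δ' := by
    rcases le_total 0 (E - δ) with h | h
    · rw [he, max_eq_right h, mul_sub, hEn, hδ']
      have := min_le_left (((n : ℝ) + 1) * δ) (D + (n - 1))
      linarith
    · rw [he, max_eq_left h, mul_zero, hδ']
      have := min_le_right (((n : ℝ) + 1) * δ) ((D : ℝ) + (n - 1))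
      linarith
  obtain ⟨κ, hκ⟩ : ∃ κ : ℝ, κ = min ((n : ℝ) - 1 - th n D * E) δ' := ⟨_, rfl⟩
  have hκ0 : 0 < κ := by rw [hκ]; exact lt_min (by linarith) hδ'0
  have hκ1 : κ ≤ (n : ℝ) - 1 - th n D * E := by rw [hκ]; exact min_le_left _ _
  have hκ2 : κ ≤ δ' := by rw [hκ]; exact min_le_right _ _
  obtain ⟨C, hC, hmain⟩ := main (by omega : 1 ≤ n) d ι μ hμ D M hD hM (by omega)
    (ε := κ / (2 * E)) (by positivity)
  have hMle : D + r ≤ M := by rw [hD, hM]; exact sum_le (by omega) d ι μ hμ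
  refine ⟨κ / 2, by positivity, 2 * C, by positivity, fun G H hH T hT => ?_⟩
  have hH0 : (0 : ℝ) < H := by linarith
  choose! x hx using fun c (hc : c ∈ T) => (hT c hc).2
  have hB : 1 ≤ H ^ e := Real.one_le_rpow hH he0
  have hinj : Function.Injective (fun c : (∀ j, ι j → ℤ) => (c, x c)) := fun c c' h =>
    (Prod.mk.inj h).1
  have h1 := hmain G H (H ^ e) hH hB (T.image fun c => (c, x c)) (by
    intro p hp
    obtain ⟨c, hc, rfl⟩ := Finset.mem_image.1 hp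
    refine ⟨(hx c hc).1, fun l => ?_, fun j => ⟨(hT c hc).1 j, (hx c hc).2.2 j⟩⟩
    refine ((hx c hc).2.1 l).trans ?_
    rw [← hE]
    apply Real.rpow_le_rpow_of_exponent_le hH
    rw [he]
    exact le_max_right _ _)
  rw [Finset.card_image_of_injective _ hinj] at h1
  refine h1.trans ?_
  have e1 : (H ^ e) ^ (κ / (2 * E)) ≤ H ^ (κ / 2) := by
    rw [← Real.rpow_mul hH0.le]
    apply Real.rpow_le_rpow_of_exponent_le hH
    calc e * (κ / (2 * E)) ≤ E * (κ / (2 * E)) := by gcongr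
      _ = κ / 2 := by field_simp
  have e2 : H ^ (M - r) * (H ^ e) ^ th n D ≤ H ^ ((M : ℝ) - κ) := by
    rw [← Real.rpow_natCast, ← Real.rpow_mul hH0.le, ← Real.rpow_add hH0]
    apply Real.rpow_le_rpow_of_exponent_le hH
    rw [Nat.cast_sub (by omega), hrr]
    have : e * th n D ≤ th n D * E := by rw [mul_comm]; gcongr
    linarith
  have e3 : H ^ (M - (D + r)) * (H ^ e) ^ (n + 1) ≤ H ^ ((M : ℝ) - κ) := by
    rw [← Real.rpow_natCast, ← Real.rpow_natCast, ← Real.rpow_mul hH0.le, ← Real.rpow_add hH0]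
    apply Real.rpow_le_rpow_of_exponent_le hH
    rw [Nat.cast_sub hMle]
    push_cast
    rw [hrr]
    have : e * ((n : ℝ) + 1) = ((n : ℝ) + 1) * e := mul_comm _ _
    rw [this]
    linarith
  calc C * (H ^ e) ^ (κ / (2 * E)) *
        (H ^ (M - r) * (H ^ e) ^ th n D + H ^ (M - (D + r)) * (H ^ e) ^ (n + 1))
      ≤ C * H ^ (κ / 2) * (H ^ ((M : ℝ) - κ) + H ^ ((M : ℝ) - κ)) := by gcongr
    _ = 2 * C * (H ^ (κ / 2) * H ^ ((M : ℝ) - κ)) := by ring
    _ = _ := by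
        rw [← Real.rpow_add hH0]
        congr 2
        ring

end Pool.Agent.R465.CI
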